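import Pool.Agent.W544.FF.Defs3
import Pool.Agent.W544.FF.Asm2

/-! Project FF (helper544), task KGS: block-symmetric invariants, few blocks. -/

open Matrix Finset Module

set_option autoImplicit false

namespace Pool.Agent.W202.FF.KGS

open Pool.Agent.W544.PG Pool.Agent.W544.FF

noncomputable section

/-- the identification of `Fin 0 ⊕ Fin n` with `Fin n` -/
def un {n : ℕ} : Fin 0 ⊕ Fin n → Fin n := Sum.elim Fin.elim0 id

theorem inr_un {n : ℕ} (x : Fin 0 ⊕ Fin n) : (Sum.inr (un x) : Fin 0 ⊕ Fin n) = x := by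
  cases x with
  | inl y => exact y.elim0
  | inr y => rfl

/-- the transported form -/
def up {n m : ℕ} (L : (Fin m → Fin n) → ℂ) : (Fin m → Fin 0 ⊕ Fin n) → ℂ :=
  fun J => L (fun j => un (J j))

theorem act_up {n m : ℕ} (Z : Matrix (Fin n) (Fin n) ℂ) (L : (Fin m → Fin n) → ℂ)
    (h : act Z L = 0) : act (fromBlocks 0 0 0 Z) (up L) = 0 := by
  funext J
  have h1 := congrFun h (fun j => un (J j))
  unfold act at h1 ⊢
  rw [Pi.zero_apply] at h1 ⊢
  rw [← h1]
  refine Finset.sum_congr rfl fun j _ => ?_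
  rw [Fintype.sum_sum_type, Finset.univ_eq_empty, Finset.sum_empty, zero_add]
  refine Finset.sum_congr rfl fun l _ => ?_
  congr 1
  · rw [← inr_un (J j)]
    rfl
  · unfold up
    congr 1
    funext i
    by_cases hi : i = j
    · subst hi
      rw [Function.update_self, Function.update_self]
      rfl
    · rw [Function.update_of_ne hi, Function.update_of_ne hi]

theorem sum_elim_un {n r : ℕ} (c : Fin n → Fin r) (x : Fin 0 ⊕ Fin n) :
    Sum.elim Fin.elim0 c x = c (un x) := by
  cases x with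
  | inl y => exact y.elim0
  | inr y => rfl

/-- the pull back -/
def dn (n m : ℕ) : ((Fin m → Fin 0 ⊕ Fin n) → ℂ) →ₗ[ℂ] ((Fin m → Fin n) → ℂ) :=
  LinearMap.funLeft ℂ ℂ (fun J j => Sum.inr (J j))

theorem dn_up {n m : ℕ} (L : (Fin m → Fin n) → ℂ) : dn n m (up L) = L := rfl

theorem gen_mem {n r m : ℕ} (c : Fin n → Fin r) (a : Fin m → Fin r) (σ : Fin m → Fin m)
    (ν : Fin m → Fin 0 → ℂ) (S : Finset (Fin r)) (g : {b : Fin n // c b ∈ S} → Fin m)
    (hok : OkG c Fin.elim0 a σ ν S g) (hS : ∀ b, c b ∉ S) :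
    dn n m (gnr (1 : Matrix (Fin n) (Fin n) ℂ) c Fin.elim0 a σ ν S g) ∈
      Submodule.span ℂ {g : (Fin m → Fin n) → ℂ | ∃ σ f', Mat m σ ∧ g = genO ℂ c σ f'} := by
  obtain ⟨h1, h2, -, -, -, -⟩ := hok
  have : IsEmpty {b : Fin n // c b ∈ S} := ⟨fun b => hS b.1 b.2⟩
  by_cases hfix : ∃ j, σ j = j
  · obtain ⟨j, hj⟩ := hfix
    have h0 : dn n m (gnr (1 : Matrix (Fin n) (Fin n) ℂ) c Fin.elim0 a σ ν S g) = 0 := by
      funext J
      change gnr (1 : Matrix (Fin n) (Fin n) ℂ) c Fin.elim0 a σ ν S g (fun j => Sum.inr (J j)) = 0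
      unfold gnr
      rw [Finset.prod_eq_zero (i := j), zero_mul, zero_mul]
      · rw [Finset.mem_filter]
        exact ⟨Finset.mem_univ _, hj, fun b => (hS b.1 b.2).elim⟩
      · rfl
    rw [h0]
    exact Submodule.zero_mem _
  · push Not at hfix
    refine Submodule.subset_span ⟨σ, a, ⟨h1, hfix⟩, ?_⟩
    funext J
    change gnr (1 : Matrix (Fin n) (Fin n) ℂ) c Fin.elim0 a σ ν S g (fun j => Sum.inr (J j)) = _
    unfold gnr genO dt
    rw [Matrix.det_isEmpty, mul_one, Finset.prod_eq_one (s := univ.filter _), one_mul]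
    swap
    · intro j hj
      rw [Finset.mem_filter] at hj
      exact absurd hj.2.1 (hfix j)
    by_cases hJ : ∀ j, c (J j) = a j
    · rw [if_pos hJ, one_mul]
      refine Finset.prod_congr rfl fun j _ => ?_
      rw [Sum.elim_inr, if_pos (hJ j), fromBlocks_apply₂₂, Matrix.one_apply]
    · rw [if_neg hJ, zero_mul]
      push Not at hJ
      obtain ⟨j, hj⟩ := hJ
      rcases lt_or_gt_of_ne (hfix j) with hlt | hgt
      · refine Finset.prod_eq_zero (i := σ j) ?_ ?_
        · rw [Finset.mem_filter]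
          exact ⟨Finset.mem_univ _, by rw [h1 j]; exact hlt⟩
        · rw [Sum.elim_inr, h1 j, fromBlocks_apply₂₂, Matrix.one_apply]
          split_ifs with h3 h4
          · exfalso
            apply hj
            rw [← h4, h3, h2]
          · rfl
          · rfl
      · refine Finset.prod_eq_zero (i := j) ?_ ?_
        · rw [Finset.mem_filter]
          exact ⟨Finset.mem_univ _, hgt⟩
        · rw [Sum.elim_inr, if_neg hj]

/-- **Task KGS.** -/
theorem kgs (hgsy : S_gsy) : S_kgs := by
  intro n r m b c a f hf hnb L hL hsupp hsym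
  have hsup' : ∀ J, up L J ≠ 0 → ∀ j, Sum.elim Fin.elim0 c (J j) = a j := by
    intro J hJ j
    rw [sum_elim_un]
    exact hsupp _ hJ j
  have h1 : up L ∈ algD (1 : Matrix (Fin n) (Fin n) ℂ) c Fin.elim0 a :=
    hdcF n r 0 m c Fin.elim0 a (up L) (fun Z hZ hB => act_up Z L (hL Z hZ hB)) hsup'
  have h2 : up L ∈ algE (1 : Matrix (Fin n) (Fin n) ℂ) c Fin.elim0 a
      (univ.filter fun i => (univ.filter fun y => c y = i).card = 0) := by
    refine hgsy ℂ n r 0 m b c Fin.elim0 a f 1 _ ?_ ?_ hf (up L) (algD_le _ _ _ _ h1) ?_ ?_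
    · intro x y hxy
      exact Matrix.one_apply_ne (fun h => hxy (by rw [h]))
    · exact Matrix.transpose_one
    · intro π hπ J
      exact hsym π hπ (fun j => un (J j))
    · intro J hJ i hi
      rw [Finset.mem_filter, not_and] at hi
      have hi' := hi (Finset.mem_univ _)
      have h3 : (univ.filter fun x : Fin b => ∃ j y, f j = x ∧ J j = Sum.inr y ∧ c y = i).card
          ≤ nb f a i := by
        refine Finset.card_le_card ?_
        intro x hx
        rw [Finset.mem_filter] at hx ⊢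
        obtain ⟨-, j, y, h4, h5, h6⟩ := hx
        refine ⟨Finset.mem_univ _, j, h4, ?_⟩
        rw [← hsup' J hJ j, h5, Sum.elim_inr, h6]
      rcases hnb i with h4 | h4
      · rw [h4] at h3
        omega
      · omega
  rw [← dn_up L]
  have h3 : algE (1 : Matrix (Fin n) (Fin n) ℂ) c Fin.elim0 a
      (univ.filter fun i => (univ.filter fun y => c y = i).card = 0) ≤
      (Submodule.span ℂ {g : (Fin m → Fin n) → ℂ |
        ∃ σ f', Mat m σ ∧ g = genO ℂ c σ f'}).comap (dn n m) := by
    unfold algE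
    rw [Submodule.span_le]
    rintro t ⟨σ, ν, S, g, hok, hS, rfl⟩
    refine gen_mem c a σ ν S g hok ?_
    intro x hx
    have h4 := hS hx
    rw [Finset.mem_filter, Finset.card_eq_zero] at h4
    have h5 : x ∈ univ.filter fun y => c y = c x := by
      rw [Finset.mem_filter]
      exact ⟨Finset.mem_univ _, rfl⟩
    rw [h4.2] at h5
    exact absurd h5 (Finset.notMem_empty _)
  exact h3 h2

end

end Pool.Agent.W202.FF.KGS
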